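import Pool.Agent.Helper93.FZ.St

/-!
# Project FZ (MP_953b28_co): module CON, a continuous family of solutions
-/

set_option autoImplicit false

namespace Pool.Agent.Helper99.FZ

open Pool.Agent.Helper93.FZ
open Finset Matrix

section

variable {n : ℕ}

private theorem dl_add (A C X Z X' Z' : Fin n → Fin n → ℝ) (r : Fin n) :
    dl A C (fun i j => X i j + X' i j) (fun i j => Z i j + Z' i j) r =
      dl A C X Z r + dl A C X' Z' r := by
  unfold dl
  simp only [mul_add, Finset.sum_add_distrib]
  ring

private theorem dl_smul (a : ℝ) (A C X Z : Fin n → Fin n → ℝ) (r : Fin n) :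
    dl A C (fun i j => a * X i j) (fun i j => a * Z i j) r = a * dl A C X Z r := by
  unfold dl
  rw [mul_sub, Finset.mul_sum, Finset.mul_sum]
  congr 1
  · exact Finset.sum_congr rfl fun i _ => by ring
  · exact Finset.sum_congr rfl fun i _ => by ring

private theorem L1_add (A B C X Y Z X' Y' Z' : Fin n → Fin n → ℝ) (r c : Fin n) :
    L1 A B C (fun i j => X i j + X' i j) (fun i j => Y i j + Y' i j)
        (fun i j => Z i j + Z' i j) r c =
      L1 A B C X Y Z r c + L1 A B C X' Y' Z' r c := by
  unfold L1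
  rw [dl_add, dl_add]
  have h : ∑ s, B c s * C s r * (X r c + X' r c + (Y c s + Y' c s) + (Z s r + Z' s r)) =
      ∑ s, B c s * C s r * (X r c + Y c s + Z s r) +
        ∑ s, B c s * C s r * (X' r c + Y' c s + Z' s r) := by
    rw [← Finset.sum_add_distrib]
    exact Finset.sum_congr rfl fun i _ => by ring
  rw [h]
  ring

private theorem L1_smul (a : ℝ) (A B C X Y Z : Fin n → Fin n → ℝ) (r c : Fin n) :
    L1 A B C (fun i j => a * X i j) (fun i j => a * Y i j) (fun i j => a * Z i j) r c =
      a * L1 A B C X Y Z r c := by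
  unfold L1
  rw [dl_smul, dl_smul]
  have h : ∑ s, B c s * C s r * (a * X r c + a * Y c s + a * Z s r) =
      a * ∑ s, B c s * C s r * (X r c + Y c s + Z s r) := by
    rw [Finset.mul_sum]
    exact Finset.sum_congr rfl fun i _ => by ring
  rw [h]
  ring

private theorem dl_continuous {A C : ℝ → Fin n → Fin n → ℝ}
    (hA : ∀ i j, Continuous fun t => A t i j) (hC : ∀ i j, Continuous fun t => C t i j)
    (X Z : Fin n → Fin n → ℝ) (r : Fin n) : Continuous fun t => dl (A t) (C t) X Z r := by
  unfold dl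
  exact (continuous_finsetSum _ fun i _ => (hA _ _).mul continuous_const).sub
    (continuous_finsetSum _ fun i _ => (hC _ _).mul continuous_const)

private theorem L1_continuous {A B C : ℝ → Fin n → Fin n → ℝ}
    (hA : ∀ i j, Continuous fun t => A t i j) (hB : ∀ i j, Continuous fun t => B t i j)
    (hC : ∀ i j, Continuous fun t => C t i j) (X Y Z : Fin n → Fin n → ℝ) (r c : Fin n) :
    Continuous fun t => L1 (A t) (B t) (C t) X Y Z r c := by
  unfold L1
  refine Continuous.sub (Continuous.add ?_ (dl_continuous hA hC X Z r)) (dl_continuous hB hA Y X c)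
  exact continuous_finsetSum _ fun i _ => ((hB _ _).mul (hC _ _)).mul continuous_const

/-- the three components of the linear map -/
private def lam (A B C : Fin n → Fin n → ℝ) (V : Fin 3 × Fin n × Fin n → ℝ)
    (p : Fin 3 × Fin n × Fin n) : ℝ :=
  if p.1 = 0 then
    L1 A B C (fun i j => V (0, i, j)) (fun i j => V (1, i, j)) (fun i j => V (2, i, j)) p.2.1 p.2.2
  else if p.1 = 1 then
    L1 B C A (fun i j => V (1, i, j)) (fun i j => V (2, i, j)) (fun i j => V (0, i, j)) p.2.1 p.2.2
  else
    L1 C A B (fun i j => V (2, i, j)) (fun i j => V (0, i, j)) (fun i j => V (1, i, j)) p.2.1 p.2.2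

/-- the linear map -/
private def lamL (A B C : Fin n → Fin n → ℝ) :
    (Fin 3 × Fin n × Fin n → ℝ) →ₗ[ℝ] (Fin 3 × Fin n × Fin n → ℝ) where
  toFun := lam A B C
  map_add' V W := by
    funext p
    change lam A B C (V + W) p = lam A B C V p + lam A B C W p
    unfold lam
    split_ifs
    · exact L1_add _ _ _ _ _ _ _ _ _ _ _
    · exact L1_add _ _ _ _ _ _ _ _ _ _ _
    · exact L1_add _ _ _ _ _ _ _ _ _ _ _
  map_smul' a V := by
    funext p
    change lam A B C (a • V) p = a * lam A B C V p
    unfold lam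
    split_ifs
    · exact L1_smul _ _ _ _ _ _ _ _ _
    · exact L1_smul _ _ _ _ _ _ _ _ _
    · exact L1_smul _ _ _ _ _ _ _ _ _

private theorem lam_continuous {A B C : ℝ → Fin n → Fin n → ℝ}
    (hA : ∀ i j, Continuous fun t => A t i j) (hB : ∀ i j, Continuous fun t => B t i j)
    (hC : ∀ i j, Continuous fun t => C t i j) (V : Fin 3 × Fin n × Fin n → ℝ)
    (p : Fin 3 × Fin n × Fin n) : Continuous fun t => lam (A t) (B t) (C t) V p := by
  unfold lam
  split_ifs
  · exact L1_continuous hA hB hC _ _ _ _ _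
  · exact L1_continuous hB hC hA _ _ _ _ _
  · exact L1_continuous hC hA hB _ _ _ _ _

/-- the matrix -/
private noncomputable def mat (A B C : Fin n → Fin n → ℝ) :
    Matrix (Fin 3 × Fin n × Fin n) (Fin 3 × Fin n × Fin n) ℝ :=
  LinearMap.toMatrix' (lamL A B C)

private theorem mat_mulVec (A B C : Fin n → Fin n → ℝ) (V : Fin 3 × Fin n × Fin n → ℝ) :
    mat A B C *ᵥ V = lam A B C V := by
  unfold mat
  rw [LinearMap.toMatrix'_mulVec]
  rfl

private theorem mat_continuous {A B C : ℝ → Fin n → Fin n → ℝ}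
    (hA : ∀ i j, Continuous fun t => A t i j) (hB : ∀ i j, Continuous fun t => B t i j)
    (hC : ∀ i j, Continuous fun t => C t i j) :
    Continuous fun t => mat (A t) (B t) (C t) := by
  apply continuous_matrix
  intro p q
  have h : (fun t => mat (A t) (B t) (C t) p q) =
      fun t => lam (A t) (B t) (C t) (Pi.single q 1) p := by
    funext t
    rw [← mat_mulVec, Matrix.mulVec_single_one]
    rfl
  rw [h]
  exact lam_continuous hA hB hC _ _

private theorem mat_det_ne_zero (hINJ : StINJ) (A B C : Fin n → Fin n → ℝ)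
    (hA : ∀ i j, 0 < A i j) (hB : ∀ i j, 0 < B i j) (hC : ∀ i j, 0 < C i j) :
    (mat A B C).det ≠ 0 := by
  have hinj : Function.Injective (mat A B C).mulVec := by
    intro V W hVW
    have h0 : mat A B C *ᵥ (V - W) = 0 := by
      rw [Matrix.mulVec_sub, sub_eq_zero]
      exact hVW
    rw [mat_mulVec] at h0
    have hp : ∀ p, lam A B C (V - W) p = 0 := fun p => congrFun h0 p
    obtain ⟨h1, h2, h3⟩ := hINJ n A B C (fun i j => (V - W) (0, i, j))
      (fun i j => (V - W) (1, i, j)) (fun i j => (V - W) (2, i, j)) hA hB hC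
      (fun r c => by simpa [lam] using hp (0, r, c))
      (fun r c => by simpa [lam] using hp (1, r, c))
      (fun r c => by simpa [lam] using hp (2, r, c))
    have h4 : V - W = 0 := by
      funext p
      obtain ⟨a, i, j⟩ := p
      fin_cases a
      · exact h1 i j
      · exact h2 i j
      · exact h3 i j
    exact sub_eq_zero.1 h4
  have hu := Matrix.mulVec_injective_iff_isUnit.1 hinj
  rw [Matrix.isUnit_iff_isUnit_det] at hu
  exact hu.ne_zero

end

theorem hCON : StCON := by
  intro hINJ n A B C hA hB hC hpos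
  have hdet : ∀ t ∈ Set.Ico (0 : ℝ) 1, (mat (A t) (B t) (C t)).det ≠ 0 := fun t ht =>
    mat_det_ne_zero hINJ _ _ _ (fun i j => (hpos t ht i j).1) (fun i j => (hpos t ht i j).2.1)
      (fun i j => (hpos t ht i j).2.2)
  obtain ⟨V, hV⟩ : ∃ V : ℝ → Fin 3 × Fin n × Fin n → ℝ, ∀ t, V t =
      ((mat (A t) (B t) (C t)).det)⁻¹ • ((mat (A t) (B t) (C t)).adjugate *ᵥ 1) := ⟨_, fun _ => rfl⟩
  have hcont : ∀ p, ContinuousOn (fun t => V t p) (Set.Ico 0 1) := by
    intro p
    have h1 : (fun t => V t p) = fun t => ((mat (A t) (B t) (C t)).det)⁻¹ *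
        ((mat (A t) (B t) (C t)).adjugate *ᵥ 1) p := by
      funext t
      rw [hV]
      rfl
    rw [h1]
    have h2 := (mat_continuous hA hB hC).matrix_det
    have h3 := (mat_continuous hA hB hC).matrix_adjugate
    have h4 : Continuous fun t => ((mat (A t) (B t) (C t)).adjugate *ᵥ 1) p :=
      (continuous_apply p).comp (h3.matrix_mulVec continuous_const)
    exact (h2.continuousOn.inv₀ hdet).mul h4.continuousOn
  have hsol : ∀ t ∈ Set.Ico (0 : ℝ) 1, ∀ p, lam (A t) (B t) (C t) (V t) p = 1 := by
    intro t ht p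
    rw [← mat_mulVec, hV, Matrix.mulVec_smul, Matrix.mulVec_mulVec, Matrix.mul_adjugate,
      Matrix.smul_mulVec, Matrix.one_mulVec, smul_smul, inv_mul_cancel₀ (hdet t ht), one_smul]
    rfl
  refine ⟨fun t i j => V t (0, i, j), fun t i j => V t (1, i, j), fun t i j => V t (2, i, j),
    fun i j => hcont _, fun i j => hcont _, fun i j => hcont _, fun t ht => ⟨?_, ?_, ?_⟩⟩
  · intro r c
    simpa [lam] using hsol t ht (0, r, c)
  · intro r c
    simpa [lam] using hsol t ht (1, r, c)
  · intro r c
    simpa [lam] using hsol t ht (2, r, c)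

end Pool.Agent.Helper99.FZ
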